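import Mathlib
import Pool.Agent.H211.CH.Stm

/-!
# Project CH: multiplicities of compositions
-/

set_option autoImplicit false

open Polynomial

namespace Pool.Agent.H746.CH211

open Pool.Agent.H211.CH

universe u

theorem sub_ne {K : Type u} [Field K] {G : K[X]} (hG : 0 < G.natDegree) (w : K) :
    G - C w ≠ 0 := by
  intro h
  have h1 : G = C w := sub_eq_zero.1 h
  rw [h1, natDegree_C] at hG
  exact lt_irrefl _ hG

theorem t_MUL {K : Type u} [Field K] [IsAlgClosed K] [CharZero K] : S_MUL K := by
  classical
  refine ⟨?_, ?_, ?_⟩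
  · intro G H hG hH y
    unfold mu
    set v := H.eval y with hv
    have hGne := sub_ne hG (G.eval v)
    have hHne := sub_ne hH v
    obtain ⟨g, hg1, hg2⟩ := exists_eq_pow_rootMultiplicity_mul_and_not_dvd (G - C (G.eval v)) hGne v
    set a := (G - C (G.eval v)).rootMultiplicity v with ha
    have h1 : G.comp H - C ((G.comp H).eval y) = (H - C v) ^ a * g.comp H := by
      have h2 : G.comp H - C ((G.comp H).eval y) = (G - C (G.eval v)).comp H := by
        rw [sub_comp, C_comp, eval_comp]
      rw [h2]
      conv_lhs => rw [hg1]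
      rw [mul_comp, pow_comp, sub_comp, X_comp, C_comp]
    have hgv : g.eval v ≠ 0 := by
      intro h
      exact hg2 (dvd_iff_isRoot.2 h)
    have hgH : (g.comp H).eval y ≠ 0 := by
      rw [eval_comp]
      exact hgv
    have hgH0 : g.comp H ≠ 0 := by
      intro h
      rw [h, eval_zero] at hgH
      exact hgH rfl
    have hpow : rootMultiplicity y ((H - C v) ^ a) = a * rootMultiplicity y (H - C v) := by
      rw [← count_roots, roots_pow, Multiset.count_nsmul, count_roots]
    rw [h1, rootMultiplicity_mul (mul_ne_zero (pow_ne_zero _ hHne) hgH0), hpow,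
      rootMultiplicity_eq_zero (p := g.comp H) hgH, add_zero]
  · intro G hG y
    unfold mu
    rw [Nat.one_le_iff_ne_zero]
    intro h
    have h1 := (rootMultiplicity_pos (sub_ne hG (G.eval y)) (x := y)).2 (by
      rw [IsRoot.def, eval_sub, eval_C, sub_self])
    omega
  · intro G hG w s hs
    have hne := sub_ne hG w
    have h1 : ∀ y ∈ s, mu G y = (G - C w).roots.count y := by
      intro y hy
      rw [count_roots]
      unfold mu
      rw [(hs y).1 hy]
    have h2 : s = (G - C w).roots.toFinset := by
      ext y
      rw [hs, Multiset.mem_toFinset, mem_roots hne, IsRoot.def, eval_sub, eval_C, sub_eq_zero]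
    rw [Finset.sum_congr rfl h1, h2, Multiset.toFinset_sum_count_eq]
    have h3 : Splits (G - C w) := IsAlgClosed.splits _
    rw [← h3.natDegree_eq_card_roots, natDegree_sub_C]

end Pool.Agent.H746.CH211
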